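import Pool.Agent.K7.H84.GG.Stm

/-!
Coloops, singletons and nonnegativity of the beta invariant (jobs `StBco`, `StBp`, `StBNN`).
-/

set_option autoImplicit false

namespace Pool.Agent.K7.H95.GGBCO

open Finset DC813 Pool.Agent.K7.H84.GG

theorem tBco : StBco := by
  intro α _ r F p hr hp hne hlt
  have hne' : (F.erase p).Nonempty := by
    rw [Finset.nonempty_iff_ne_empty]
    intro h
    rw [Finset.erase_eq_empty_iff] at h
    rcases h with h | h
    · rw [h] at hp; simp at hp
    · exact hne h
  refine (A1.mu_coloop r F p hp ?_ ?_).2 hne'
  · intro X hX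
    have h1 := hr.submod (F.erase p) (insert p X)
    have h2 : F.erase p ∪ insert p X = F := by
      ext y
      simp only [mem_union, mem_erase, mem_insert]
      constructor
      · rintro (h | h | h)
        · exact h.2
        · rw [h]; exact hp
        · exact Finset.mem_of_mem_erase (hX h)
      · intro h
        by_cases hy : y = p
        · exact Or.inr (Or.inl hy)
        · exact Or.inl ⟨hy, h⟩
    have h3 : F.erase p ∩ insert p X = X := by
      ext y
      simp only [mem_inter, mem_erase, mem_insert]
      constructor
      · rintro ⟨⟨h, _⟩, h' | h'⟩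
        · exact absurd h' h
        · exact h'
      · intro h
        have := hX h
        rw [mem_erase] at this
        exact ⟨this, Or.inr h⟩
    rw [h2, h3] at h1
    have h4 := hr.insert_le X p
    omega
  · intro X hX
    exact hr.mono _ _ hX

theorem tBp : StBp := by
  intro α _ r p hr hp
  have h1 : r {p} = 1 := by
    have h := hr.insert_le ∅ p
    rw [hr.empty] at h
    simp only [insert_empty_eq] at h
    omega
  have h2 := Finset.sum_powerset_insert (Finset.notMem_empty p)
    (fun X : Finset α => (-1 : ℤ) ^ X.card * (r X : ℤ))
  simp only [insert_empty_eq, powerset_empty, sum_singleton, hr.empty, h1, card_empty,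
    card_singleton] at h2
  unfold beta
  rw [h1, h2]
  simp

theorem mc_self {α : Type} [DecidableEq α] (r : Finset α → ℕ) (E : Finset α) :
    mc r E E = 1 := by
  have h0 : con r E ∅ = 0 := by simp [con]
  have h1 : (∅ : Finset α).powerset.filter (fun X => con r E X = con r E ∅) = {∅} := by
    ext X
    simp only [mem_filter, mem_powerset, subset_empty, mem_singleton]
    constructor
    · rintro ⟨h, _⟩; exact h
    · rintro rfl; exact ⟨rfl, rfl⟩
  unfold mc mu
  have h2 : E \ E = ∅ := by simp
  rw [h2, h1, h0]
  simp

theorem tBNN (hI : StID1) (hW : StWeis) : StBNN := by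
  intro α _ r E p hr hlp hp hG
  have hE : E.Nonempty := ⟨p, hp⟩
  set f : Finset α → ℤ := fun A => if A = ∅ then 0 else 1 with hf
  have hsub : Sub f := by
    intro A B
    simp only [hf]
    by_cases hA : A = ∅
    · subst hA; simp
    · by_cases hB : B = ∅
      · subst hB; simp
      · have h1 : (if A ∪ B = ∅ then (0 : ℤ) else 1) ≤ 1 := by split_ifs <;> norm_num
        have h2 : (if A ∩ B = ∅ then (0 : ℤ) else 1) ≤ 1 := by split_ifs <;> norm_num
        rw [if_neg hA, if_neg hB]
        linarith
  have h := hG f hsub
  unfold GGs at h
  have hEf : E ∈ (fl r E).filter (fun F => p ∈ F) := by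
    rw [mem_filter]
    refine ⟨?_, hp⟩
    unfold fl
    rw [mem_filter, mem_powerset]
    exact ⟨subset_refl _, fun e he hne => absurd he hne⟩
  have hI' := hI α r E p hr hlp hp
  have hW' := hW α r E p hr hp (hlp p hp)
  have hL : ∑ F ∈ (fl r E).filter (fun F => p ∈ F), beta r F * mc r E F * f (E \ F)
      = mu r E - beta r E := by
    rw [← hI', ← Finset.add_sum_erase _ _ hEf, ← Finset.add_sum_erase _ _ hEf, mc_self]
    have h1 : f (E \ E) = 0 := by simp [hf]
    rw [h1]
    have h2 : ∑ F ∈ ((fl r E).filter (fun F => p ∈ F)).erase E, beta r F * mc r E F * f (E \ F)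
        = ∑ F ∈ ((fl r E).filter (fun F => p ∈ F)).erase E, beta r F * mc r E F := by
      refine Finset.sum_congr rfl fun F hF => ?_
      have h3 : f (E \ F) = 1 := by
        simp only [hf]
        rw [if_neg]
        intro h4
        rw [Finset.sdiff_eq_empty_iff_subset] at h4
        rw [mem_erase, mem_filter] at hF
        have h5 : F ⊆ E := by
          have := hF.2.1
          unfold fl at this
          rw [mem_filter, mem_powerset] at this
          exact this.1
        exact hF.1 (subset_antisymm h5 h4)
      rw [h3, mul_one]
    rw [h2]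
    ring
  have hR : ∑ H ∈ hy r E p, mu r H * f H ≤ mu r E := by
    rw [← hW']
    refine Finset.sum_le_sum fun H _ => ?_
    by_cases hH : H = ∅
    · subst hH
      have h1 : f ∅ = 0 := by simp [hf]
      have h2 : mu r (∅ : Finset α) = 1 := by
        unfold mu
        have h3 : (∅ : Finset α).powerset.filter (fun X => r X = r ∅) = {∅} := by
          ext X
          simp only [mem_filter, mem_powerset, subset_empty, mem_singleton]
          constructor
          · rintro ⟨h, _⟩; exact h
          · rintro rfl; exact ⟨rfl, rfl⟩
        rw [h3, hr.empty]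
        simp
      rw [h1, h2]; norm_num
    · have h1 : f H = 1 := by simp [hf, hH]
      rw [h1, mul_one]
  linarith

end Pool.Agent.K7.H95.GGBCO
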