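import Pool.Agent.K7.H16.SG.Stm

set_option autoImplicit false

open Finset

namespace Pool.Agent.K7.H95.SGANA

open Pool.Agent.K7.H16.SG

def conv (m : ℕ) : ℚ := ∑ i ∈ range (m + 1), c i * c (m - i)

lemma c_zero : c 0 = 1 := by rw [c]

lemma c_succ (m : ℕ) : c (m + 1) = min (conv m)
    ((1 + 1 / ((m : ℚ) + 1)) / 2 * conv m + c m - c m / ((m : ℚ) + 1)) := by
  rw [c]
  have h : ∑ i : Fin (m + 1), c i * c (m - i) = conv m := by
    unfold conv
    rw [Finset.sum_range]
  rw [h]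

lemma c_nonneg (n : ℕ) : 0 ≤ c n := by
  induction n using Nat.strong_induction_on with
  | _ n ih =>
    cases n with
    | zero => rw [c_zero]; norm_num
    | succ m =>
      have hc : 0 ≤ conv m := by
        unfold conv
        refine Finset.sum_nonneg fun i hi => ?_
        have := Finset.mem_range.1 hi
        exact mul_nonneg (ih i (by omega)) (ih (m - i) (by omega))
      have hm := ih m (by omega)
      rw [c_succ]
      refine le_min hc ?_
      have h1 : c m / ((m : ℚ) + 1) ≤ c m := by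
        apply div_le_self hm
        have : (0 : ℚ) ≤ m := Nat.cast_nonneg m
        linarith
      have h2 : 0 ≤ (1 + 1 / ((m : ℚ) + 1)) / 2 * conv m := by positivity
      linarith

lemma conv_nonneg (m : ℕ) : 0 ≤ conv m :=
  Finset.sum_nonneg fun _ _ => mul_nonneg (c_nonneg _) (c_nonneg _)

lemma c1 : c 1 = 1 := by
  rw [c_succ, conv]; norm_num [Finset.sum_range_succ, c_zero]
lemma c2 : c 2 = 2 := by
  rw [c_succ, conv]; norm_num [Finset.sum_range_succ, c_zero, c1]
lemma c3 : c 3 = 14 / 3 := by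
  rw [c_succ, conv]; norm_num [Finset.sum_range_succ, c_zero, c1, c2]
lemma c4 : c 4 = 71 / 6 := by
  rw [c_succ, conv]; norm_num [Finset.sum_range_succ, c_zero, c1, c2, c3]
lemma c5 : c 5 = 95 / 3 := by
  rw [c_succ, conv]; norm_num [Finset.sum_range_succ, c_zero, c1, c2, c3, c4]
lemma c6 : c 6 = 3169 / 36 := by
  rw [c_succ, conv]; norm_num [Finset.sum_range_succ, c_zero, c1, c2, c3, c4, c5]
lemma c7 : c 7 = 10573 / 42 := by
  rw [c_succ, conv]; norm_num [Finset.sum_range_succ, c_zero, c1, c2, c3, c4, c5, c6]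
lemma c8 : c 8 = 494513 / 672 := by
  rw [c_succ, conv]; norm_num [Finset.sum_range_succ, c_zero, c1, c2, c3, c4, c5, c6, c7]
lemma c9 : c 9 = 19859351 / 9072 := by
  rw [c_succ, conv]; norm_num [Finset.sum_range_succ, c_zero, c1, c2, c3, c4, c5, c6, c7, c8]

def P (N : ℕ) : ℚ := ∑ k ∈ range N, c k * (20 / 71 : ℚ) ^ k

def S (N : ℕ) : ℚ := ∑ k ∈ range N, conv k * (20 / 71 : ℚ) ^ k

lemma P_nonneg (N : ℕ) : 0 ≤ P N :=
  Finset.sum_nonneg fun k _ => mul_nonneg (c_nonneg k) (by positivity)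

lemma P_mono {M N : ℕ} (h : M ≤ N) : P M ≤ P N :=
  Finset.sum_le_sum_of_subset_of_nonneg (Finset.range_mono h) fun k _ _ =>
    mul_nonneg (c_nonneg k) (by positivity)

lemma S_le (N : ℕ) : S N ≤ P N ^ 2 := by
  unfold S P
  have h1 : ∑ k ∈ range N, conv k * (20 / 71 : ℚ) ^ k =
      ∑ m ∈ range N, ∑ k ∈ range (m + 1),
        (fun a b => (c a * (20 / 71 : ℚ) ^ a) * (c b * (20 / 71 : ℚ) ^ b)) k (m - k) := by
    refine Finset.sum_congr rfl fun m _ => ?_
    rw [conv, Finset.sum_mul]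
    refine Finset.sum_congr rfl fun k hk => ?_
    have hk' : k ≤ m := by have := Finset.mem_range.1 hk; omega
    have : (20 / 71 : ℚ) ^ m = (20 / 71 : ℚ) ^ k * (20 / 71 : ℚ) ^ (m - k) := by
      rw [← pow_add]; congr 1; omega
    rw [this]
    ring
  have h2 := Finset.sum_range_diag_flip N
    (fun a b => (c a * (20 / 71 : ℚ) ^ a) * (c b * (20 / 71 : ℚ) ^ b))
  rw [h1, pow_two, Finset.sum_mul_sum]
  refine (le_of_eq h2).trans (Finset.sum_le_sum fun m _ => ?_)
  exact Finset.sum_le_sum_of_subset_of_nonneg (Finset.range_mono (Nat.sub_le _ _)) fun k _ _ =>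
    mul_nonneg (mul_nonneg (c_nonneg _) (by positivity)) (mul_nonneg (c_nonneg _) (by positivity))

lemma step (m : ℕ) (hm : 9 ≤ m) : c (m + 1) ≤ 11 / 20 * conv m + c m := by
  rw [c_succ]
  refine (min_le_right _ _).trans ?_
  have h1 : 0 ≤ c m / ((m : ℚ) + 1) := div_nonneg (c_nonneg m) (by positivity)
  have h2 : (1 + 1 / ((m : ℚ) + 1)) / 2 ≤ 11 / 20 := by
    have h3 : 1 / ((m : ℚ) + 1) ≤ 1 / 10 := by
      apply one_div_le_one_div_of_le (by norm_num)
      have : (9 : ℚ) ≤ m := by exact_mod_cast hm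
      linarith
    linarith
  have h3 := mul_le_mul_of_nonneg_right h2 (conv_nonneg m)
  linarith

lemma main (k : ℕ) : P (k + 10) ≤ P 10 + 11 / 20 * (20 / 71) * (S (k + 9) - S 9) +
    20 / 71 * (P (k + 9) - P 9) := by
  induction k with
  | zero => simp
  | succ k ih =>
    have e1 : P (k + 1 + 10) = P (k + 10) + c (k + 10) * (20 / 71 : ℚ) ^ (k + 10) := by
      unfold P
      rw [show k + 1 + 10 = (k + 10) + 1 by ring, Finset.sum_range_succ]
    have e2 : S (k + 1 + 9) = S (k + 9) + conv (k + 9) * (20 / 71 : ℚ) ^ (k + 9) := by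
      unfold S
      rw [show k + 1 + 9 = (k + 9) + 1 by ring, Finset.sum_range_succ]
    have e3 : P (k + 1 + 9) = P (k + 9) + c (k + 9) * (20 / 71 : ℚ) ^ (k + 9) := by
      unfold P
      rw [show k + 1 + 9 = (k + 9) + 1 by ring, Finset.sum_range_succ]
    have h := step (k + 9) (by omega)
    have hx : (0 : ℚ) ≤ (20 / 71 : ℚ) ^ (k + 10) := by positivity
    have h2 := mul_le_mul_of_nonneg_right h hx
    have e4 : (20 / 71 : ℚ) ^ (k + 10) = 20 / 71 * (20 / 71 : ℚ) ^ (k + 9) := by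
      rw [pow_succ (20 / 71 : ℚ) (k + 9)]; ring
    rw [e1, e2, e3]
    rw [show k + 9 + 1 = k + 10 by ring] at h2
    have e5 : (11 / 20 * conv (k + 9) + c (k + 9)) * (20 / 71 : ℚ) ^ (k + 10) =
      11 / 20 * (20 / 71) * (conv (k + 9) * (20 / 71 : ℚ) ^ (k + 9)) +
        20 / 71 * (c (k + 9) * (20 / 71 : ℚ) ^ (k + 9)) := by rw [e4]; ring
    rw [e5] at h2
    linarith

lemma P10 : P 10 ≤ 9 / 4 ∧
    P 10 - 11 / 20 * (20 / 71) * S 9 - 20 / 71 * P 9 ≤ 831 / 1000 := by
  unfold P S conv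
  norm_num [Finset.sum_range_succ, c_zero, c1, c2, c3, c4, c5, c6, c7, c8, c9]

lemma P_le (k : ℕ) : P (k + 9) ≤ 9 / 4 := by
  induction k with
  | zero => exact (P_mono (by norm_num)).trans P10.1
  | succ k ih =>
    have h1 := main k
    have h2 := S_le (k + 9)
    have h3 := P_nonneg (k + 9)
    have h4 : P (k + 9) ^ 2 ≤ (9 / 4) ^ 2 := pow_le_pow_left₀ h3 ih 2
    have h5 := P10.2
    rw [show k + 1 + 9 = k + 10 by ring]
    nlinarith

theorem t : StAna := by
  refine ⟨9 / 4, fun n => ?_⟩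
  have h1 : c n * (20 / 71 : ℚ) ^ n ≤ P (n + 1) :=
    Finset.single_le_sum (f := fun k => c k * (20 / 71 : ℚ) ^ k)
      (fun k _ => mul_nonneg (c_nonneg k) (by positivity)) (Finset.self_mem_range_succ n)
  have h2 : P (n + 1) ≤ 9 / 4 := (P_mono (by omega)).trans (P_le (n + 1))
  have h3 : (20 / 71 : ℚ) ^ n * (71 / 20 : ℚ) ^ n = 1 := by
    rw [← mul_pow]; norm_num
  have h4 := mul_le_mul_of_nonneg_right (h1.trans h2) (by positivity : (0 : ℚ) ≤ (71 / 20 : ℚ) ^ n)
  rwa [mul_assoc, h3, mul_one] at h4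

end Pool.Agent.K7.H95.SGANA
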